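import Mathlib

/-!
# Divergence of the sum of reciprocals of the primes in a residue class
-/

set_option autoImplicit false

open ArithmeticFunction ArithmeticFunction.vonMangoldt Filter Topology

namespace Pool.Agent.H98R3.OM

theorem not_summable_class {q : ℕ} [NeZero q] {a : ZMod q} (ha : IsUnit a) :
    ¬ Summable (fun n : ℕ => if n.Prime ∧ (n : ZMod q) = a then (1 : ℝ) / n else 0) := by
  intro H
  set g : ℕ → ℝ := fun n : ℕ => if n.Prime ∧ (n : ZMod q) = a then (1 : ℝ) / n else 0 with hg
  have hg0 : ∀ n, 0 ≤ g n := by
    intro n; simp only [hg]; split_ifs <;> positivity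
  have hS := summable_residueClass_non_primes_div a
  have hb : Summable (fun n : ℕ => g n + (if n.Prime then 0 else residueClass a n) / n) :=
    H.add hS
  have hT : Tendsto (fun s : ℝ => ∑' n : ℕ, s * (residueClass a n / (n : ℝ) ^ (1 + s)))
      (𝓝[>] 0) (𝓝 (∑' _ : ℕ, (0 : ℝ))) := by
    apply tendsto_tsum_of_dominated_convergence hb
    · intro n
      have h1 : Tendsto (fun s : ℝ => s * residueClass a n) (𝓝[>] 0) (𝓝 0) := by
        have : Tendsto (fun s : ℝ => s * residueClass a n) (𝓝 0) (𝓝 (0 * residueClass a n)) :=
          tendsto_id.mul_const _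
        rw [zero_mul] at this
        exact this.mono_left nhdsWithin_le_nhds
      refine squeeze_zero' ?_ ?_ h1
      · filter_upwards [self_mem_nhdsWithin] with s hs
        have hs' : (0 : ℝ) < s := hs
        have := residueClass_nonneg a n
        positivity
      · filter_upwards [self_mem_nhdsWithin] with s hs
        have hs' : (0 : ℝ) < s := hs
        rcases Nat.eq_zero_or_pos n with rfl | hn
        · simp
        · have h2 : (1 : ℝ) ≤ (n : ℝ) ^ (1 + s) :=
            Real.one_le_rpow (by exact_mod_cast hn) (by linarith)
          exact mul_le_mul_of_nonneg_left (div_le_self (residueClass_nonneg a n) h2) hs'.le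
    · filter_upwards [Ioc_mem_nhdsGT (show (0 : ℝ) < 1 by norm_num)] with s hs n
      have hs0 : 0 < s := hs.1
      have hs1 : s ≤ 1 := hs.2
      have hr := residueClass_nonneg a n
      rw [Real.norm_of_nonneg (by positivity)]
      rcases Nat.eq_zero_or_pos n with rfl | hn
      · simp [hg]
      have hn0 : (0 : ℝ) < n := by exact_mod_cast hn
      have hn1 : (1 : ℝ) ≤ n := by exact_mod_cast hn
      have hpow : (n : ℝ) ^ (1 + s) = n * (n : ℝ) ^ s := by
        rw [Real.rpow_add hn0, Real.rpow_one]
      have hps : (1 : ℝ) ≤ (n : ℝ) ^ s := Real.one_le_rpow hn1 hs0.le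
      by_cases hp : n.Prime
      · simp only [hp, if_true, zero_div, add_zero]
        by_cases hc : (n : ZMod q) = a
        · have hgn : g n = 1 / n := by simp [hg, hp, hc]
          rw [hgn]
          have hrc : residueClass a n ≤ Real.log n := by
            refine (residueClass_le a n).trans ?_
            rw [vonMangoldt_apply_prime hp]
          have hlog : s * Real.log n ≤ (n : ℝ) ^ s := by
            have h3 : Real.log ((n : ℝ) ^ s) ≤ (n : ℝ) ^ s :=
              Real.log_le_self (by positivity)
            rwa [Real.log_rpow hn0] at h3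
          rw [hpow]
          have h4 : s * (residueClass a n / (n * (n : ℝ) ^ s)) =
              (s * residueClass a n) / (n : ℝ) ^ s * (1 / n) := by
            field_simp
          rw [h4]
          have h5 : (s * residueClass a n) / (n : ℝ) ^ s ≤ 1 := by
            rw [div_le_one (by positivity)]
            exact (mul_le_mul_of_nonneg_left hrc hs0.le).trans hlog
          calc (s * residueClass a n) / (n : ℝ) ^ s * (1 / n) ≤ 1 * (1 / n) :=
                mul_le_mul_of_nonneg_right h5 (by positivity)
            _ = 1 / n := one_mul _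
        · have hz : residueClass a n = 0 := by
            apply Set.indicator_of_notMem
            exact hc
          rw [hz]
          simpa using hg0 n
      · simp only [hp, if_false]
        have h6 : s * (residueClass a n / (n : ℝ) ^ (1 + s)) ≤ residueClass a n / n := by
          calc s * (residueClass a n / (n : ℝ) ^ (1 + s)) ≤
                1 * (residueClass a n / (n : ℝ) ^ (1 + s)) :=
                mul_le_mul_of_nonneg_right hs1 (by positivity)
            _ = residueClass a n / (n : ℝ) ^ (1 + s) := one_mul _
            _ ≤ residueClass a n / n := by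
                apply div_le_div_of_nonneg_left hr hn0
                rw [hpow]
                nlinarith
        linarith [hg0 n]
  rw [tsum_zero] at hT
  obtain ⟨C, hC⟩ := LSeries_residueClass_lower_bound ha
  have hq : 0 < ((q.totient : ℝ))⁻¹ := inv_pos.mpr (mod_cast q.totient.pos_of_neZero)
  have hlow : Tendsto (fun s : ℝ => (q.totient : ℝ)⁻¹ - C * s) (𝓝[>] 0)
      (𝓝 ((q.totient : ℝ)⁻¹)) := by
    have : Tendsto (fun s : ℝ => (q.totient : ℝ)⁻¹ - C * s) (𝓝 0)
      (𝓝 ((q.totient : ℝ)⁻¹ - C * 0)) := by
      exact (tendsto_const_nhds).sub (tendsto_const_nhds.mul tendsto_id)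
    rw [mul_zero, sub_zero] at this
    exact this.mono_left nhdsWithin_le_nhds
  have hle : (q.totient : ℝ)⁻¹ ≤ 0 := by
    refine le_of_tendsto_of_tendsto hlow hT ?_
    filter_upwards [Ioc_mem_nhdsGT (show (0 : ℝ) < 1 by norm_num)] with s hs
    have hs0 : 0 < s := hs.1
    have h := hC (x := 1 + s) ⟨by linarith, by linarith [hs.2]⟩
    rw [tsum_mul_left]
    have h7 : (q.totient : ℝ)⁻¹ - C * s = s * ((q.totient : ℝ)⁻¹ / (1 + s - 1) - C) := by
      have : (1 + s - 1) = s := by ring
      rw [this]
      field_simp
    rw [h7]
    exact mul_le_mul_of_nonneg_left h hs0.le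
  linarith

end Pool.Agent.H98R3.OM
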