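import Mathlib

/-!
# Binary forms: propagation of roots modulo primes, and a second moment bound
-/

set_option autoImplicit false

open Filter Topology

namespace Pool.Agent.H98R3.OM

/-- Scaling of a homogeneous form. -/
theorem eval_scale {R : Type*} [CommRing R] {P : MvPolynomial (Fin 2) R} {d : ℕ}
    (hP : P.IsHomogeneous d) (t : R) (v : Fin 2 → R) :
    MvPolynomial.eval (fun i => t * v i) P = t ^ d * MvPolynomial.eval v P := by
  rw [MvPolynomial.eval_eq, MvPolynomial.eval_eq, Finset.mul_sum]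
  apply Finset.sum_congr rfl
  intro s hs
  have h1 : s.degree = d := by
    by_contra h
    exact (MvPolynomial.mem_support_iff.mp hs) (hP.coeff_eq_zero h)
  have h2 : ∏ i ∈ s.support, (t * v i) ^ s i = t ^ d * ∏ i ∈ s.support, v i ^ s i := by
    simp_rw [mul_pow]
    rw [Finset.prod_mul_distrib, Finset.prod_pow_eq_pow_sum]
    congr 2
  rw [h2]
  ring

/-- If `p` divides `P(c,1)` and `m ≡ c n` modulo `p` then `p` divides `P(m,n)`. -/
theorem dvd_of_root {P : MvPolynomial (Fin 2) ℤ} {d : ℕ} (hP : P.IsHomogeneous d) (p : ℕ)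
    (c : ℤ) (hc : (p : ℤ) ∣ MvPolynomial.eval ![c, 1] P) (m n : ℤ)
    (hmn : (p : ℤ) ∣ m - c * n) : (p : ℤ) ∣ MvPolynomial.eval ![m, n] P := by
  have hcast : ∀ z : ℤ, (p : ℤ) ∣ z ↔ (z : ZMod p) = 0 := by
    intro z
    exact (ZMod.intCast_zmod_eq_zero_iff_dvd z p).symm
  rw [hcast] at hc hmn ⊢
  push_cast at hmn
  have hm : (m : ZMod p) = (n : ZMod p) * (c : ZMod p) := by
    linear_combination hmn
  have e1 : ((MvPolynomial.eval ![m, n] P : ℤ) : ZMod p) =
      MvPolynomial.eval (fun i => (n : ZMod p) * (![(c : ZMod p), 1] : Fin 2 → ZMod p) i)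
        (MvPolynomial.map (Int.castRingHom (ZMod p)) P) := by
    have := MvPolynomial.map_eval (Int.castRingHom (ZMod p)) ![m, n] P
    rw [Int.coe_castRingHom] at this
    refine this.trans ?_
    congr 2
    funext i
    fin_cases i
    · simp [hm]
    · simp
  have e2 : ((MvPolynomial.eval ![c, 1] P : ℤ) : ZMod p) =
      MvPolynomial.eval (![(c : ZMod p), 1] : Fin 2 → ZMod p)
        (MvPolynomial.map (Int.castRingHom (ZMod p)) P) := by
    have := MvPolynomial.map_eval (Int.castRingHom (ZMod p)) ![c, 1] P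
    rw [Int.coe_castRingHom] at this
    refine this.trans ?_
    congr 2
    funext i
    fin_cases i
    · simp
    · simp
  rw [e1, eval_scale (hP.map _), ← e2, hc, mul_zero]

/-- Number of elements of a residue class in `(0, N]` when the modulus divides `N`. -/
theorem count_class (N d r : ℕ) (hd : 0 < d) (hN : d ∣ N) :
    (((Finset.Ioc 0 N).filter (fun m => m ≡ r [MOD d])).card : ℝ) = (N : ℝ) / d := by
  obtain ⟨e, rfl⟩ := hN
  have h := Nat.Ioc_filter_modEq_card 0 (d * e) hd r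
  have hd' : (d : ℚ) ≠ 0 := by positivity
  have h1 : (((d * e : ℕ) : ℚ) - (r : ℚ)) / (d : ℚ) = ((0 : ℕ) - (r : ℚ)) / (d : ℚ) + (e : ℕ) := by
    push_cast
    field_simp
    ring
  rw [h1, Int.floor_add_natCast] at h
  have h2 : (((Finset.Ioc 0 (d * e)).filter (fun m => m ≡ r [MOD d])).card : ℤ) = e := by
    rw [h]
    have : (⌊((0 : ℕ) - (r : ℚ)) / (d : ℚ)⌋ + (e : ℤ) - ⌊((0 : ℕ) - (r : ℚ)) / (d : ℚ)⌋) = (e : ℤ) := by
      ring
    rw [this]
    simp
  have h3 : (((Finset.Ioc 0 (d * e)).filter (fun m => m ≡ r [MOD d])).card : ℝ) = e := by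
    exact_mod_cast h2
  rw [h3]
  have hd'' : (d : ℝ) ≠ 0 := by positivity
  push_cast
  field_simp

/-- Number of elements of two residue classes to distinct primes. -/
theorem count_class_two (N p q r s : ℕ) (hp : p.Prime) (hq : q.Prime) (hpq : p ≠ q)
    (hN : p * q ∣ N) :
    (((Finset.Ioc 0 N).filter (fun m => m ≡ r [MOD p] ∧ m ≡ s [MOD q])).card : ℝ) =
      (N : ℝ) / (p * q) := by
  have hco : Nat.Coprime p q := (Nat.coprime_primes hp hq).mpr hpq
  obtain ⟨k, hk1, hk2⟩ := Nat.chineseRemainder hco r s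
  have h : (Finset.Ioc 0 N).filter (fun m => m ≡ r [MOD p] ∧ m ≡ s [MOD q]) =
      (Finset.Ioc 0 N).filter (fun m => m ≡ k [MOD p * q]) := by
    apply Finset.filter_congr
    intro m _
    rw [← Nat.modEq_and_modEq_iff_modEq_mul hco]
    constructor
    · rintro ⟨h1, h2⟩
      exact ⟨h1.trans hk1.symm, h2.trans hk2.symm⟩
    · rintro ⟨h1, h2⟩
      exact ⟨h1.trans hk1, h2.trans hk2⟩
  rw [h, count_class N (p * q) k (Nat.mul_pos hp.pos hq.pos) hN]
  push_cast
  rfl

/-- Second moment bound for one row. -/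
theorem bad_row (S : Finset ℕ) (hS : ∀ p ∈ S, p.Prime) (r : ℕ → ℕ) (N : ℕ)
    (hN : ∀ p ∈ S, p ∣ N) (K : ℕ)
    (hE : 2 * (K : ℝ) ≤ ∑ p ∈ S, (1 : ℝ) / p) (hE0 : 0 < ∑ p ∈ S, (1 : ℝ) / p) :
    (((Finset.Ioc 0 N).filter
      (fun m => (S.filter (fun p => m ≡ r p [MOD p])).card < K)).card : ℝ) ≤
      4 * N / (∑ p ∈ S, (1 : ℝ) / p) := by
  classical
  set E : ℝ := ∑ p ∈ S, (1 : ℝ) / p with hEdef
  let X : ℕ → ℕ → ℝ := fun p m => (if m ≡ r p [MOD p] then (1 : ℝ) else 0) - 1 / p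
  have hdiag : ∀ p ∈ S, ∑ m ∈ Finset.Ioc 0 N, X p m * X p m ≤ N * (1 / (p : ℝ)) := by
    intro p hp
    have hp0 : (0 : ℝ) < p := by exact_mod_cast (hS p hp).pos
    have h1 : ∀ m, X p m * X p m =
        (1 - 2 / (p : ℝ)) * (if m ≡ r p [MOD p] then (1 : ℝ) else 0) + 1 / (p : ℝ) ^ 2 := by
      intro m
      simp only [X]
      split_ifs
      · field_simp; ring
      · field_simp; ring
    simp_rw [h1]
    rw [Finset.sum_add_distrib, ← Finset.mul_sum, Finset.sum_boole,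
      count_class N p (r p) (hS p hp).pos (hN p hp)]
    rw [Finset.sum_const, Nat.card_Ioc, Nat.sub_zero, nsmul_eq_mul]
    have : (1 - 2 / (p : ℝ)) * (N / p) + N * (1 / (p : ℝ) ^ 2) =
        N * (1 / (p : ℝ)) - N / (p : ℝ) ^ 2 := by
      field_simp
      ring
    rw [this]
    have : (0 : ℝ) ≤ N / (p : ℝ) ^ 2 := by positivity
    linarith
  have hoff : ∀ p ∈ S, ∀ q ∈ S, p ≠ q → ∑ m ∈ Finset.Ioc 0 N, X p m * X q m = 0 := by
    intro p hp q hq hpq
    have hp0 : (0 : ℝ) < p := by exact_mod_cast (hS p hp).pos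
    have hq0 : (0 : ℝ) < q := by exact_mod_cast (hS q hq).pos
    have hdvd : p * q ∣ N :=
      Nat.Coprime.mul_dvd_of_dvd_of_dvd ((Nat.coprime_primes (hS p hp) (hS q hq)).mpr hpq)
        (hN p hp) (hN q hq)
    have h1 : ∀ m, X p m * X q m =
        (if (m ≡ r p [MOD p] ∧ m ≡ r q [MOD q]) then (1 : ℝ) else 0)
        - 1 / (q : ℝ) * (if m ≡ r p [MOD p] then (1 : ℝ) else 0)
        - 1 / (p : ℝ) * (if m ≡ r q [MOD q] then (1 : ℝ) else 0) + 1 / ((p : ℝ) * q) := by
      intro m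
      simp only [X]
      by_cases ha : m ≡ r p [MOD p] <;> by_cases hb : m ≡ r q [MOD q]
      · simp only [ha, hb, if_true, and_self]; field_simp; ring
      · simp only [ha, hb, if_true, if_false, and_false]; field_simp; ring
      · simp only [ha, hb, if_true, if_false, false_and]; field_simp; ring
      · simp only [ha, hb, if_false, false_and]; field_simp; ring
    simp_rw [h1]
    rw [Finset.sum_add_distrib, Finset.sum_sub_distrib, Finset.sum_sub_distrib,
      ← Finset.mul_sum, ← Finset.mul_sum, Finset.sum_boole, Finset.sum_boole, Finset.sum_boole,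
      count_class N p (r p) (hS p hp).pos (hN p hp),
      count_class N q (r q) (hS q hq).pos (hN q hq),
      count_class_two N p q (r p) (r q) (hS p hp) (hS q hq) hpq hdvd]
    rw [Finset.sum_const, Nat.card_Ioc, Nat.sub_zero, nsmul_eq_mul]
    field_simp
    ring
  have hsecond : ∑ m ∈ Finset.Ioc 0 N, (∑ p ∈ S, X p m) ^ 2 ≤ N * E := by
    have h1 : ∀ m, (∑ p ∈ S, X p m) ^ 2 = ∑ p ∈ S, ∑ q ∈ S, X p m * X q m := by
      intro m
      rw [pow_two, Finset.sum_mul_sum]
    simp_rw [h1]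
    rw [Finset.sum_comm]
    have h2 : ∀ p ∈ S, ∑ m ∈ Finset.Ioc 0 N, ∑ q ∈ S, X p m * X q m ≤ N * (1 / (p : ℝ)) := by
      intro p hp
      rw [Finset.sum_comm]
      rw [← Finset.add_sum_erase S _ hp]
      have h3 : ∑ q ∈ S.erase p, ∑ m ∈ Finset.Ioc 0 N, X p m * X q m = 0 := by
        apply Finset.sum_eq_zero
        intro q hq
        exact hoff p hp q (Finset.mem_of_mem_erase hq) (Finset.ne_of_mem_erase hq).symm
      rw [h3, add_zero]
      exact hdiag p hp
    calc ∑ p ∈ S, ∑ m ∈ Finset.Ioc 0 N, ∑ q ∈ S, X p m * X q m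
        ≤ ∑ p ∈ S, N * (1 / (p : ℝ)) := Finset.sum_le_sum h2
      _ = N * E := by rw [← Finset.mul_sum]
  set B := (Finset.Ioc 0 N).filter
      (fun m => (S.filter (fun p => m ≡ r p [MOD p])).card < K) with hB
  have hlow : (B.card : ℝ) * (E / 2) ^ 2 ≤ ∑ m ∈ Finset.Ioc 0 N, (∑ p ∈ S, X p m) ^ 2 := by
    calc (B.card : ℝ) * (E / 2) ^ 2 = ∑ _m ∈ B, (E / 2) ^ 2 := by
          rw [Finset.sum_const, nsmul_eq_mul]
      _ ≤ ∑ m ∈ B, (∑ p ∈ S, X p m) ^ 2 := by
          apply Finset.sum_le_sum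
          intro m hm
          rw [hB, Finset.mem_filter] at hm
          have h4 : ∑ p ∈ S, X p m = ((S.filter (fun p => m ≡ r p [MOD p])).card : ℝ) - E := by
            simp only [X]
            rw [Finset.sum_sub_distrib, Finset.sum_boole]
          rw [h4]
          have h5 : ((S.filter (fun p => m ≡ r p [MOD p])).card : ℝ) ≤ K := by
            exact_mod_cast hm.2.le
          have h6 : ((S.filter (fun p => m ≡ r p [MOD p])).card : ℝ) - E ≤ -(E / 2) := by
            linarith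
          nlinarith
      _ ≤ ∑ m ∈ Finset.Ioc 0 N, (∑ p ∈ S, X p m) ^ 2 := by
          apply Finset.sum_le_sum_of_subset_of_nonneg (Finset.filter_subset _ _)
          intro m _ _
          positivity
  rw [le_div_iff₀ hE0]
  have h7 : (B.card : ℝ) * (E / 2) ^ 2 ≤ N * E := hlow.trans hsecond
  have h8 : (B.card : ℝ) * E * E ≤ (4 * N) * E := by nlinarith
  exact le_of_mul_le_mul_right h8 hE0

/-- Distinct prime divisors are counted by `Ω`. -/
theorem card_le_cardFactors (S : Finset ℕ) (hS : ∀ p ∈ S, p.Prime) (z : ℕ) (hz : z ≠ 0)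
    (h : ∀ p ∈ S, p ∣ z) : S.card ≤ ArithmeticFunction.cardFactors z := by
  have h1 : S ⊆ z.primeFactors := by
    intro p hp
    exact Nat.mem_primeFactors.mpr ⟨hS p hp, h p hp, hz⟩
  calc S.card ≤ z.primeFactors.card := Finset.card_le_card h1
    _ ≤ z.primeFactorsList.length := by
        rw [← Nat.toFinset_factors]
        exact List.toFinset_card_le _
    _ = ArithmeticFunction.cardFactors z := (ArithmeticFunction.cardFactors_apply).symm

/-- Along suitable scales, most values of the form have many prime factors. -/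
theorem sparse_small (Q : MvPolynomial (Fin 2) ℤ) (d : ℕ) (hQ : Q.IsHomogeneous d)
    (hpos : ∀ m n : ℕ, 0 < m → 0 < n → 0 < MvPolynomial.eval ![(m : ℤ), (n : ℤ)] Q)
    (hdiv : ¬ Summable (Set.indicator
      {p : ℕ | p.Prime ∧ ∃ c : ℤ, (p : ℤ) ∣ MvPolynomial.eval ![c, 1] Q}
      (fun p : ℕ => (1 : ℝ) / p)))
    (K : ℕ) (ε : ℝ) (hε : 0 < ε) (N₀ : ℕ) :
    ∃ N : ℕ, N₀ ≤ N ∧ 0 < N ∧
      ((((Finset.Icc 1 N) ×ˢ (Finset.Icc 1 N)).filter (fun z : ℕ × ℕ =>
        ArithmeticFunction.cardFactors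
          (MvPolynomial.eval ![(z.1 : ℤ), (z.2 : ℤ)] Q).natAbs < K)).card : ℝ) ≤
        ε * (N : ℝ) ^ 2 := by
  classical
  have hnn : ∀ p : ℕ, 0 ≤ Set.indicator
      {p : ℕ | p.Prime ∧ ∃ c : ℤ, (p : ℤ) ∣ MvPolynomial.eval ![c, 1] Q}
      (fun p : ℕ => (1 : ℝ) / p) p := by
    intro p
    apply Set.indicator_nonneg
    intro p _
    positivity
  have htop := (not_summable_iff_tendsto_nat_atTop_of_nonneg hnn).mp hdiv
  obtain ⟨L, hL⟩ := (htop.eventually_ge_atTop (2 * (K : ℝ) + 4 / ε)).exists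
  set S : Finset ℕ := (Finset.range L).filter
    (fun p => p.Prime ∧ ∃ c : ℤ, (p : ℤ) ∣ MvPolynomial.eval ![c, 1] Q) with hSdef
  have hL' : ∑ i ∈ Finset.range L, Set.indicator
      {p : ℕ | p.Prime ∧ ∃ c : ℤ, (p : ℤ) ∣ MvPolynomial.eval ![c, 1] Q}
      (fun p : ℕ => (1 : ℝ) / p) i = ∑ p ∈ S, (1 : ℝ) / p := by
    rw [hSdef, Finset.sum_filter]
    apply Finset.sum_congr rfl
    intro p _
    rw [Set.indicator_apply]
    rfl
  rw [hL'] at hL
  set E : ℝ := ∑ p ∈ S, (1 : ℝ) / p with hE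
  have hε4 : 0 < 4 / ε := by positivity
  have hK0 : (0 : ℝ) ≤ K := by positivity
  have hE0 : 0 < E := by linarith
  have hE2 : 2 * (K : ℝ) ≤ E := by linarith
  have hE4 : 4 / E ≤ ε := by
    rw [div_le_iff₀ hE0]
    have : 4 / ε ≤ E := by linarith
    rw [div_le_iff₀ hε] at this
    linarith
  have hSp : ∀ p ∈ S, p.Prime := fun p hp => (Finset.mem_filter.mp hp).2.1
  have hSc : ∀ p ∈ S, ∃ c : ℤ, (p : ℤ) ∣ MvPolynomial.eval ![c, 1] Q :=
    fun p hp => (Finset.mem_filter.mp hp).2.2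
  choose! c hc using hSc
  set M : ℕ := ∏ p ∈ S, p with hM
  have hM0 : 0 < M := Finset.prod_pos (fun p hp => (hSp p hp).pos)
  set N : ℕ := M * (N₀ + 1) with hNdef
  have hN0 : 0 < N := Nat.mul_pos hM0 (Nat.succ_pos _)
  refine ⟨N, ?_, hN0, ?_⟩
  · calc N₀ ≤ 1 * (N₀ + 1) := by omega
      _ ≤ N := Nat.mul_le_mul_right _ hM0
  have hdvd : ∀ p ∈ S, p ∣ N := fun p hp =>
    Dvd.dvd.mul_right (Finset.dvd_prod_of_mem _ hp) _
  have hrow : ∀ n ∈ Finset.Icc 1 N, ((((Finset.Icc 1 N)).filter (fun m : ℕ =>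
        ArithmeticFunction.cardFactors
          (MvPolynomial.eval ![(m : ℤ), (n : ℤ)] Q).natAbs < K)).card : ℝ) ≤ 4 * N / E := by
    intro n hn
    have hn1 : 0 < n := (Finset.mem_Icc.mp hn).1
    refine le_trans ?_ (bad_row S hSp (fun p => ((c p * n) % (p : ℤ)).toNat) N hdvd K hE2 hE0)
    have : (Finset.Icc 1 N) = Finset.Ioc 0 N := rfl
    rw [this]
    have hsub : (Finset.Ioc 0 N).filter (fun m : ℕ =>
        ArithmeticFunction.cardFactors
          (MvPolynomial.eval ![(m : ℤ), (n : ℤ)] Q).natAbs < K) ⊆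
        (Finset.Ioc 0 N).filter (fun m =>
          (S.filter (fun p => m ≡ ((c p * n) % (p : ℤ)).toNat [MOD p])).card < K) := by
      intro m hm
      rw [Finset.mem_filter] at hm ⊢
      refine ⟨hm.1, lt_of_le_of_lt ?_ hm.2⟩
      have hm1 : 0 < m := (Finset.mem_Ioc.mp hm.1).1
      have hposmn := hpos m n hm1 hn1
      apply card_le_cardFactors
      · intro p hp
        exact hSp p (Finset.mem_filter.mp hp).1
      · exact Int.natAbs_ne_zero.mpr hposmn.ne'
      · intro p hp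
        rw [Finset.mem_filter] at hp
        have hpp : 0 < (p : ℤ) := by exact_mod_cast (hSp p hp.1).pos
        rw [← Int.natCast_dvd]
        apply dvd_of_root hQ p (c p) (hc p hp.1)
        have h1 : ((m : ℕ) : ℤ) ≡ ((((c p * n) % (p : ℤ)).toNat : ℕ) : ℤ) [ZMOD p] :=
          (Int.natCast_modEq_iff).mpr hp.2
        rw [Int.toNat_of_nonneg (Int.emod_nonneg _ hpp.ne')] at h1
        have h2 : ((m : ℕ) : ℤ) ≡ c p * n [ZMOD p] := h1.trans (Int.mod_modEq _ _)
        exact (Int.modEq_iff_dvd.mp h2.symm)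
    exact_mod_cast Finset.card_le_card hsub
  have hcount : ((((Finset.Icc 1 N) ×ˢ (Finset.Icc 1 N)).filter (fun z : ℕ × ℕ =>
        ArithmeticFunction.cardFactors
          (MvPolynomial.eval ![(z.1 : ℤ), (z.2 : ℤ)] Q).natAbs < K)).card : ℝ) =
      ∑ n ∈ Finset.Icc 1 N, ((((Finset.Icc 1 N)).filter (fun m : ℕ =>
        ArithmeticFunction.cardFactors
          (MvPolynomial.eval ![(m : ℤ), (n : ℤ)] Q).natAbs < K)).card : ℝ) := by
    rw [Finset.card_filter, Finset.sum_product_right]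
    push_cast
    apply Finset.sum_congr rfl
    intro n _
    rw [Finset.card_filter]
    push_cast
    rfl
  rw [hcount]
  calc ∑ n ∈ Finset.Icc 1 N, ((((Finset.Icc 1 N)).filter (fun m : ℕ =>
        ArithmeticFunction.cardFactors
          (MvPolynomial.eval ![(m : ℤ), (n : ℤ)] Q).natAbs < K)).card : ℝ)
      ≤ ∑ _n ∈ Finset.Icc 1 N, 4 * (N : ℝ) / E := Finset.sum_le_sum hrow
    _ = (4 / E) * (N : ℝ) ^ 2 := by
        rw [Finset.sum_const, Nat.card_Icc, nsmul_eq_mul, Nat.add_sub_cancel]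
        ring
    _ ≤ ε * (N : ℝ) ^ 2 := mul_le_mul_of_nonneg_right hE4 (by positivity)

end Pool.Agent.H98R3.OM
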