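import Mathlib

/-!
# A uniquely ergodic subshift with sparse phase defects
-/

set_option autoImplicit false

open Filter Topology MeasureTheory

namespace Pool.Agent.H98R3.OM

/-- Number of phase defects of `x` in the window `[a, a+L)`. -/
def defCount (k : ℕ) (x : ℕ → ZMod k) (a L : ℕ) : ℕ :=
  ((Finset.range L).filter (fun i => x (a + i + 1) ≠ x (a + i) + 1)).card

/-- The subshift of sequences in `ZMod k` whose phase defects are sparse in all windows. -/
def XX (k : ℕ) : Type := {x : ℕ → ZMod k // ∀ a L, (defCount k x a L) ^ 2 ≤ 4 * L}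

instance (k : ℕ) : TopologicalSpace (XX k) := inferInstanceAs (TopologicalSpace (Subtype _))

theorem isEmbedding_val (k : ℕ) : Topology.IsEmbedding (fun x : XX k => x.1) :=
  Topology.IsEmbedding.subtypeVal

instance (k : ℕ) : TopologicalSpace.MetrizableSpace (XX k) :=
  (isEmbedding_val k).metrizableSpace

instance (k : ℕ) : MeasurableSpace (XX k) := borel _

instance (k : ℕ) : BorelSpace (XX k) := ⟨rfl⟩

theorem continuous_val (k : ℕ) : Continuous (fun x : XX k => x.1) := continuous_subtype_val

theorem continuous_coord (k : ℕ) (n : ℕ) : Continuous (fun x : XX k => x.1 n) :=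
  (continuous_apply n).comp (continuous_val k)

theorem isClopen_defect (k i : ℕ) : IsClopen {x : ℕ → ZMod k | x (i + 1) ≠ x i + 1} := by
  have : {x : ℕ → ZMod k | x (i + 1) ≠ x i + 1} =
      (fun x : ℕ → ZMod k => (x (i + 1), x i)) ⁻¹' {p : ZMod k × ZMod k | p.1 ≠ p.2 + 1} := rfl
  rw [this]
  apply IsClopen.preimage (isClopen_discrete _)
  fun_prop

theorem isClosed_cond (k : ℕ) :
    IsClosed {x : ℕ → ZMod k | ∀ a L, (defCount k x a L) ^ 2 ≤ 4 * L} := by
  have h : {x : ℕ → ZMod k | ∀ a L, (defCount k x a L) ^ 2 ≤ 4 * L} =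
      ⋂ a : ℕ, ⋂ L : ℕ, {x : ℕ → ZMod k | (defCount k x a L) ^ 2 ≤ 4 * L} := by
    ext x; simp
  rw [h]
  apply isClosed_iInter
  intro a
  apply isClosed_iInter
  intro L
  have h2 : Continuous (fun x : ℕ → ZMod k => defCount k x a L) := by
    have h3 : (fun x : ℕ → ZMod k => defCount k x a L) = fun x => ∑ i ∈ Finset.range L,
        Set.indicator {x : ℕ → ZMod k | x (a + i + 1) ≠ x (a + i) + 1} (fun _ => 1) x := by
      funext x
      unfold defCount
      rw [Finset.card_filter]
      apply Finset.sum_congr rfl
      intro i _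
      rw [Set.indicator_apply]
      rfl
    rw [h3]
    apply continuous_finsetSum
    intro i _
    exact continuous_const.indicator (by
      intro y hy
      rw [(isClopen_defect k (a + i)).frontier_eq] at hy
      exact absurd hy (Set.notMem_empty _))
  exact (isClosed_discrete {n : ℕ | n ^ 2 ≤ 4 * L}).preimage h2

instance (k : ℕ) [NeZero k] : CompactSpace (XX k) :=
  isCompact_iff_compactSpace.mp (isClosed_cond k).isCompact

theorem defCount_shift (k : ℕ) (x : ℕ → ZMod k) (b a L : ℕ) :
    defCount k (fun n => x (n + b)) a L = defCount k x (a + b) L := by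
  unfold defCount
  congr 1
  apply Finset.filter_congr
  intro i _
  have h1 : a + i + 1 + b = a + b + i + 1 := by ring
  have h2 : a + i + b = a + b + i := by ring
  simp only [h1, h2]

/-- The shift. -/
def TT (k : ℕ) (x : XX k) : XX k :=
  ⟨fun n => x.1 (n + 1), fun a L => by rw [defCount_shift]; exact x.2 _ _⟩

theorem continuous_TT (k : ℕ) : Continuous (TT k) := by
  apply Continuous.subtype_mk
  apply continuous_pi
  intro n
  exact continuous_coord k (n + 1)

theorem iterate_TT (k : ℕ) (x : XX k) (m n : ℕ) : ((TT k)^[m] x).1 n = x.1 (n + m) := by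
  induction m generalizing x n with
  | zero => rfl
  | succ m ih =>
    rw [Function.iterate_succ_apply, ih]
    change x.1 (n + m + 1) = x.1 (n + (m + 1))
    rfl

/-- The periodic point with phase `z`. -/
def bb (k : ℕ) (z : ZMod k) : XX k :=
  ⟨fun n => z + n, fun a L => by
    have : defCount k (fun n => z + n) a L = 0 := by
      unfold defCount
      rw [Finset.card_eq_zero, Finset.filter_eq_empty_iff]
      intro i _
      push_cast
      simp [add_assoc]
    rw [this]
    positivity⟩

theorem TT_bb (k : ℕ) (z : ZMod k) : TT k (bb k z) = bb k (z + 1) := by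
  apply Subtype.ext
  funext n
  change z + ((n + 1 : ℕ) : ZMod k) = z + 1 + (n : ZMod k)
  push_cast
  ring

/-- The set of points with a defect at place `i`. -/
def EE (k i : ℕ) : Set (XX k) := {x | x.1 (i + 1) ≠ x.1 i + 1}

theorem isClopen_EE (k i : ℕ) : IsClopen (EE k i) :=
  (isClopen_defect k i).preimage (continuous_val k)

theorem isClopen_coord (k : ℕ) (n : ℕ) (z : ZMod k) : IsClopen {x : XX k | x.1 n = z} :=
  (isClopen_discrete {z}).preimage (continuous_coord k n)

theorem measure_EE_eq (k : ℕ) (μ : Measure (XX k)) (hμ : MeasurePreserving (TT k) μ μ) (i : ℕ) :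
    μ (EE k i) = μ (EE k 0) := by
  have h := (hμ.iterate i).measure_preimage (s := EE k 0)
    (isClopen_EE k 0).isOpen.measurableSet.nullMeasurableSet
  rw [← h]
  congr 1
  ext x
  simp only [EE, Set.mem_ofPred_eq, Set.mem_preimage]
  rw [iterate_TT, iterate_TT]
  simp [add_comm]

theorem measure_EE_zero (k : ℕ) (μ : Measure (XX k)) [IsProbabilityMeasure μ]
    (hμ : MeasurePreserving (TT k) μ μ) : μ (EE k 0) = 0 := by
  have key : ∀ n : ℕ, ((n : ENNReal)) ^ 2 * μ (EE k 0) ≤ 2 * n := by
    intro n
    have h1 : ∑ i ∈ Finset.range (n ^ 2), μ (EE k i) = (n : ENNReal) ^ 2 * μ (EE k 0) := by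
      rw [Finset.sum_congr rfl (fun i _ => measure_EE_eq k μ hμ i), Finset.sum_const,
        Finset.card_range, nsmul_eq_mul]
      push_cast
      rfl
    rw [← h1]
    have h2 : ∀ i, μ (EE k i) = ∫⁻ x, (EE k i).indicator (fun _ => (1 : ENNReal)) x ∂μ := by
      intro i
      rw [lintegral_indicator (isClopen_EE k i).isOpen.measurableSet]
      simp
    simp_rw [h2]
    rw [← lintegral_finsetSum]
    · calc ∫⁻ x, ∑ i ∈ Finset.range (n ^ 2), (EE k i).indicator (fun _ => (1 : ENNReal)) x ∂μ
          ≤ ∫⁻ _x, (2 * n : ENNReal) ∂μ := by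
            apply lintegral_mono
            intro x
            have h3 : ∑ i ∈ Finset.range (n ^ 2), (EE k i).indicator (fun _ => (1 : ENNReal)) x
                = ((defCount k x.1 0 (n ^ 2) : ℕ) : ENNReal) := by
              unfold defCount
              rw [Finset.card_filter]
              push_cast
              apply Finset.sum_congr rfl
              intro i _
              rw [zero_add]
              by_cases hh : x.1 (i + 1) ≠ x.1 i + 1
              · rw [if_pos hh]
                exact Set.indicator_of_mem (s := EE k i) hh _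
              · rw [if_neg hh]
                exact Set.indicator_of_notMem (s := EE k i) hh _
            simp only
            rw [h3]
            have h4 : defCount k x.1 0 (n ^ 2) ≤ 2 * n := by
              have := x.2 0 (n ^ 2)
              by_contra hlt
              push Not at hlt
              have h5 : (2 * n + 1) ^ 2 ≤ (defCount k x.1 0 (n ^ 2)) ^ 2 :=
                Nat.pow_le_pow_left hlt 2
              nlinarith
            exact_mod_cast h4
        _ = 2 * n := by simp
    · intro i _
      exact measurable_const.indicator (isClopen_EE k i).isOpen.measurableSet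
  by_contra hne
  have hfin : μ (EE k 0) ≠ ⊤ := measure_ne_top _ _
  have hpos : 0 < (μ (EE k 0)).toReal := ENNReal.toReal_pos hne hfin
  obtain ⟨n, hn⟩ := exists_nat_gt (2 / (μ (EE k 0)).toReal)
  have h := key n
  have hn0 : (0 : ℝ) < n := lt_trans (by positivity) hn
  have h6 : ((n : ENNReal) ^ 2 * μ (EE k 0)).toReal ≤ (2 * (n : ENNReal)).toReal :=
    ENNReal.toReal_mono (by finiteness) h
  rw [ENNReal.toReal_mul, ENNReal.toReal_pow, ENNReal.toReal_natCast, ENNReal.toReal_mul,
    ENNReal.toReal_natCast, ENNReal.toReal_ofNat] at h6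
  rw [div_lt_iff₀ hpos] at hn
  nlinarith

theorem ae_periodic (k : ℕ) (μ : Measure (XX k)) [IsProbabilityMeasure μ]
    (hμ : MeasurePreserving (TT k) μ μ) : ∀ᵐ x ∂μ, x = bb k (x.1 0) := by
  have h : ∀ᵐ x ∂μ, ∀ i, x ∉ EE k i := by
    rw [ae_all_iff]
    intro i
    rw [ae_iff]
    have : {a | ¬ a ∉ EE k i} = EE k i := by ext; simp
    rw [this, measure_EE_eq k μ hμ i, measure_EE_zero k μ hμ]
  filter_upwards [h] with x hx
  apply Subtype.ext
  funext n
  change x.1 n = x.1 0 + (n : ZMod k)
  induction n with
  | zero => simp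
  | succ n ih =>
    have h2 := hx n
    simp only [EE, Set.mem_ofPred_eq, not_not] at h2
    rw [h2, ih]
    push_cast
    ring

theorem measure_coord (k : ℕ) [NeZero k] (μ : Measure (XX k)) [IsProbabilityMeasure μ]
    (hμ : MeasurePreserving (TT k) μ μ) (z : ZMod k) :
    μ {x : XX k | x.1 0 = z} = (k : ENNReal)⁻¹ := by
  have hstep : ∀ z : ZMod k, μ {x : XX k | x.1 0 = z + 1} = μ {x : XX k | x.1 0 = z} := by
    intro z
    have h := hμ.measure_preimage (s := {x : XX k | x.1 0 = z + 1})
      (isClopen_coord k 0 (z + 1)).isOpen.measurableSet.nullMeasurableSet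
    rw [← h]
    apply measure_congr
    have h0 : ∀ᵐ x ∂μ, x ∉ EE k 0 := by
      rw [ae_iff]
      have : {a | ¬ a ∉ EE k 0} = EE k 0 := by ext; simp
      rw [this, measure_EE_zero k μ hμ]
    filter_upwards [h0] with x hx
    simp only [EE, Set.mem_ofPred_eq, not_not, zero_add] at hx
    apply propext
    change x.1 (0 + 1) = z + 1 ↔ x.1 0 = z
    rw [zero_add, hx]
    exact add_left_inj 1
  have hconst : ∀ z : ZMod k, μ {x : XX k | x.1 0 = z} = μ {x : XX k | x.1 0 = 0} := by
    intro z
    have hn : ∀ n : ℕ, μ {x : XX k | x.1 0 = (n : ZMod k)} = μ {x : XX k | x.1 0 = 0} := by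
      intro n
      induction n with
      | zero => simp
      | succ n ih =>
        rw [← ih, ← hstep (n : ZMod k)]
        push_cast
        rfl
    have := hn z.val
    rwa [ZMod.natCast_zmod_val] at this
  have hsum : ∑ z : ZMod k, μ {x : XX k | x.1 0 = z} = 1 := by
    rw [← measure_biUnion_finset]
    · rw [← measure_univ (μ := μ)]
      congr 1
      ext x
      simp
    · intro a _ b _ hab
      rw [Function.onFun, Set.disjoint_left]
      intro x hx hx'
      exact hab (hx.symm.trans hx')
    · intro b _
      exact (isClopen_coord k 0 b).isOpen.measurableSet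
  rw [Finset.sum_congr rfl (fun z _ => hconst z), Finset.sum_const, Finset.card_univ,
    ZMod.card, nsmul_eq_mul] at hsum
  rw [hconst z]
  exact ENNReal.eq_inv_of_mul_eq_one_left (by rw [mul_comm]; exact hsum)

/-- The measure of any measurable set under any invariant probability measure. -/
theorem measure_formula (k : ℕ) [NeZero k] (μ : Measure (XX k)) [IsProbabilityMeasure μ]
    (hμ : MeasurePreserving (TT k) μ μ) (S : Set (XX k)) (hS : MeasurableSet S) :
    μ S = ∑ z : ZMod k, (S.indicator (fun _ => (k : ENNReal)⁻¹) (bb k z)) := by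
  classical
  have h1 : μ S = ∑ z : ZMod k, μ (S ∩ {x : XX k | x.1 0 = z}) := by
    rw [← measure_biUnion_finset]
    · congr 1
      ext x
      simp
    · intro a _ b _ hab
      rw [Function.onFun, Set.disjoint_left]
      intro x hx hx'
      exact hab (hx.2.symm.trans hx'.2)
    · intro b _
      exact hS.inter (isClopen_coord k 0 b).isOpen.measurableSet
  rw [h1]
  apply Finset.sum_congr rfl
  intro z _
  by_cases hz : bb k z ∈ S
  · rw [Set.indicator_of_mem hz, ← measure_coord k μ hμ z]
    apply measure_congr
    filter_upwards [ae_periodic k μ hμ] with x hx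
    apply propext
    constructor
    · intro h; exact h.2
    · intro h
      refine ⟨?_, h⟩
      rw [hx]
      have : x.1 0 = z := h
      rw [this]
      exact hz
  · rw [Set.indicator_of_notMem hz]
    rw [← measure_empty (μ := μ)]
    apply measure_congr
    filter_upwards [ae_periodic k μ hμ] with x hx
    apply propext
    constructor
    · intro h
      exfalso
      apply hz
      have h2 : x.1 0 = z := h.2
      rw [← h2, ← hx]
      exact h.1
    · intro h; exact False.elim h

/-- The system is uniquely ergodic. -/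
theorem unique_ergodic (k : ℕ) [NeZero k] :
    ∃! μ : Measure (XX k), IsProbabilityMeasure μ ∧ MeasurePreserving (TT k) μ μ := by
  have hmeas : Measurable (TT k) := (continuous_TT k).measurable
  refine ⟨(k : ENNReal)⁻¹ • ∑ z : ZMod k, Measure.dirac (bb k z), ⟨⟨?_⟩, ⟨hmeas, ?_⟩⟩, ?_⟩
  · rw [Measure.smul_apply, Measure.finsetSum_apply]
    simp only [measure_univ, Finset.sum_const, Finset.card_univ, ZMod.card, nsmul_eq_mul, mul_one,
      smul_eq_mul]
    exact ENNReal.inv_mul_cancel (by exact_mod_cast NeZero.ne k) (ENNReal.natCast_ne_top k)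
  · rw [Measure.map_smul, Measure.map_finset_sum hmeas.aemeasurable]
    congr 1
    simp_rw [Measure.map_dirac' hmeas, TT_bb]
    exact Equiv.sum_comp (Equiv.addRight (1 : ZMod k)) (fun z => Measure.dirac (bb k z))
  · rintro μ ⟨hp, hinv⟩
    have := hp
    apply Measure.ext
    intro S hS
    rw [measure_formula k μ hinv S hS, Measure.smul_apply, Measure.finsetSum_apply,
      smul_eq_mul, Finset.mul_sum]
    apply Finset.sum_congr rfl
    intro z _
    rw [Measure.dirac_apply' _ hS]
    by_cases hz : bb k z ∈ S
    · simp [hz]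
    · simp [hz]

end Pool.Agent.H98R3.OM
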