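import Pool.Agent.H98R3.OM.A2
import Pool.Agent.H98R3.OM.A3

/-!
# The oscillating point
-/

set_option autoImplicit false

open Filter Topology MeasureTheory

namespace Pool.Agent.H98R3.OM

/-- Number of defect times before `n`. -/
noncomputable def ss (t : ℕ → ℕ) (n : ℕ) : ℕ := by
  classical
  exact ((Finset.range n).filter (fun j => j ∈ Set.range t)).card

theorem ss_succ_of_mem (t : ℕ → ℕ) (n : ℕ) (h : n ∈ Set.range t) :
    ss t (n + 1) = ss t n + 1 := by
  classical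
  unfold ss
  rw [Finset.range_add_one, Finset.filter_insert, if_pos h, Finset.card_insert_of_notMem]
  simp

theorem ss_succ_of_notMem (t : ℕ → ℕ) (n : ℕ) (h : n ∉ Set.range t) :
    ss t (n + 1) = ss t n := by
  classical
  unfold ss
  rw [Finset.range_add_one, Finset.filter_insert, if_neg h]

theorem growth {t : ℕ → ℕ} (ht : ∀ i, 2 * t i + 1 ≤ t (i + 1)) (i m : ℕ) :
    t i + 2 ^ m ≤ t (i + m) + 1 := by
  induction m with
  | zero => simp
  | succ m ih =>
    have := ht (i + m)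
    rw [← add_assoc, pow_succ]
    omega

theorem strictMono_t {t : ℕ → ℕ} (ht : ∀ i, 2 * t i + 1 ≤ t (i + 1)) : StrictMono t := by
  apply strictMono_nat_of_lt_succ
  intro i
  have := ht i
  omega

theorem sq_le_pow (c : ℕ) (hc : 1 ≤ c) : c ^ 2 ≤ 4 * 2 ^ (c - 1) := by
  obtain ⟨e, rfl⟩ : ∃ e, c = e + 1 := ⟨c - 1, by omega⟩
  rw [Nat.add_sub_cancel]
  clear hc
  induction e with
  | zero => norm_num
  | succ e ih =>
    rcases Nat.lt_or_ge e 2 with h | h
    · interval_cases e <;> norm_num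
    · rw [pow_succ 2 e]
      nlinarith

/-- The number of defect times in a window is small. -/
theorem window_bound {t : ℕ → ℕ} (ht : ∀ i, 2 * t i + 1 ≤ t (i + 1)) (a L : ℕ)
    (W : Finset ℕ) (hW : ∀ i ∈ W, i < L ∧ a + i ∈ Set.range t) : W.card ^ 2 ≤ 4 * L := by
  classical
  rcases W.eq_empty_or_nonempty with rfl | hne
  · simp
  have hmono := strictMono_t ht
  choose! idx hidx using (fun i (hi : i ∈ W) => (hW i hi).2)
  have hinj : Set.InjOn idx W := by
    intro i hi j hj hij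
    have h1 := hidx i hi
    have h2 := hidx j hj
    rw [hij] at h1
    omega
  set I := W.image idx with hI
  have hcard : I.card = W.card := Finset.card_image_of_injOn hinj
  have hIne : I.Nonempty := hne.image _
  set lo := I.min' hIne with hlo
  set hi := I.max' hIne with hhi
  have hlomem : lo ∈ I := Finset.min'_mem _ _
  have hhimem : hi ∈ I := Finset.max'_mem _ _
  have hle : I.card ≤ hi - lo + 1 := by
    have : I ⊆ Finset.Icc lo hi := by
      intro x hx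
      rw [Finset.mem_Icc]
      exact ⟨Finset.min'_le _ _ hx, Finset.le_max' _ _ hx⟩
    have h := Finset.card_le_card this
    rw [Nat.card_Icc] at h
    have : lo ≤ hi := Finset.min'_le _ _ hhimem
    omega
  obtain ⟨i1, hi1, hi1'⟩ := Finset.mem_image.mp hlomem
  obtain ⟨i2, hi2, hi2'⟩ := Finset.mem_image.mp hhimem
  have e1 : t lo = a + i1 := by rw [← hi1']; exact hidx i1 hi1
  have e2 : t hi = a + i2 := by rw [← hi2']; exact hidx i2 hi2
  have hlt := (hW i2 hi2).1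
  have hlohi : lo ≤ hi := Finset.min'_le _ _ hhimem
  have hg := growth ht lo (hi - lo)
  rw [Nat.add_sub_cancel' hlohi, e1, e2] at hg
  have hpow : 2 ^ (W.card - 1) ≤ 2 ^ (hi - lo) := Nat.pow_le_pow_right (by norm_num) (by omega)
  have h1 : 2 ^ (W.card - 1) ≤ L := by omega
  have hc1 : 1 ≤ W.card := Finset.card_pos.mpr hne
  calc W.card ^ 2 ≤ 4 * 2 ^ (W.card - 1) := sq_le_pow _ hc1
    _ ≤ 4 * L := Nat.mul_le_mul_left _ h1

/-- The oscillating point. -/
noncomputable def pt (k : ℕ) (t : ℕ → ℕ) (ht : ∀ i, 2 * t i + 1 ≤ t (i + 1)) : XX k :=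
  ⟨fun n => (n : ZMod k) + (ss t n : ZMod k), fun a L => by
    unfold defCount
    apply window_bound ht a L
    intro i hi
    rw [Finset.mem_filter, Finset.mem_range] at hi
    refine ⟨hi.1, ?_⟩
    by_contra hn
    apply hi.2
    simp only
    rw [ss_succ_of_notMem t _ hn]
    push_cast
    ring⟩

theorem ss_value {t : ℕ → ℕ} (ht : ∀ i, 2 * t i + 1 ≤ t (i + 1)) (i n : ℕ)
    (h1 : t i < n) (h2 : n ≤ t (i + 1)) : ss t n = i + 1 := by
  classical
  have hmono := strictMono_t ht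
  unfold ss
  have : (Finset.range n).filter (fun j => j ∈ Set.range t) = (Finset.range (i + 1)).image t := by
    ext j
    rw [Finset.mem_filter, Finset.mem_range, Finset.mem_image]
    constructor
    · rintro ⟨hj, l, rfl⟩
      refine ⟨l, ?_, rfl⟩
      rw [Finset.mem_range]
      exact hmono.lt_iff_lt.mp (lt_of_lt_of_le hj h2)
    · rintro ⟨l, hl, rfl⟩
      rw [Finset.mem_range] at hl
      refine ⟨lt_of_le_of_lt (hmono.monotone (by omega)) h1, l, rfl⟩
  rw [this, Finset.card_image_of_injective _ hmono.injective, Finset.card_range]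

/-- The observable. -/
noncomputable def FF (k : ℕ) : C(XX k, ℂ) :=
  ⟨fun x => if x.1 0 = 0 then 1 else 0, by
    have : (fun x : XX k => if x.1 0 = 0 then (1 : ℂ) else 0) =
        (fun z : ZMod k => if z = 0 then (1 : ℂ) else 0) ∘ (fun x : XX k => x.1 0) := rfl
    rw [this]
    exact continuous_of_discreteTopology.comp (continuous_coord k 0)⟩

theorem FF_value (k : ℕ) {t : ℕ → ℕ} (ht : ∀ i, 2 * t i + 1 ≤ t (i + 1)) (i w : ℕ)
    (h1 : t i < k * w) (h2 : k * w ≤ t (i + 1)) :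
    FF k ((TT k)^[k * w] (pt k t ht)) = if k ∣ (i + 1) then 1 else 0 := by
  change (if ((TT k)^[k * w] (pt k t ht)).1 0 = 0 then (1 : ℂ) else 0) = _
  rw [iterate_TT, zero_add]
  have : (pt k t ht).1 (k * w) = ((i + 1 : ℕ) : ZMod k) := by
    change ((k * w : ℕ) : ZMod k) + ((ss t (k * w) : ℕ) : ZMod k) = _
    rw [ss_value ht i (k * w) h1 h2]
    push_cast
    simp
  rw [this]
  simp only [ZMod.natCast_eq_zero_iff]

/-- The recursive choice of scales. -/
theorem exists_scales (k : ℕ) (W : ℕ → ℕ → ℕ)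
    (hW : ∀ K N₀ : ℕ, ∃ N : ℕ, N₀ ≤ N ∧ 0 < N ∧
      ((((Finset.Icc 1 N) ×ˢ (Finset.Icc 1 N)).filter
        (fun z : ℕ × ℕ => W z.1 z.2 < K)).card : ℝ) ≤ 1 / 4 * (N : ℝ) ^ 2) :
    ∃ t N : ℕ → ℕ, (∀ i, 2 * t i + 1 ≤ t (i + 1)) ∧ (∀ i, i ≤ N i) ∧ (∀ i, 0 < N i) ∧
      (∀ i, ∀ z ∈ (Finset.Icc 1 (N i)) ×ˢ (Finset.Icc 1 (N i)), k * W z.1 z.2 ≤ t (i + 1)) ∧
      (∀ i, ((((Finset.Icc 1 (N i)) ×ˢ (Finset.Icc 1 (N i))).filter
        (fun z : ℕ × ℕ => W z.1 z.2 < t i + 1)).card : ℝ) ≤ 1 / 4 * (N i : ℝ) ^ 2) := by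
  choose f hf1 hf2 hf3 using hW
  let sup : ℕ → ℕ := fun N =>
    ((Finset.Icc 1 N) ×ˢ (Finset.Icc 1 N)).sup (fun z : ℕ × ℕ => W z.1 z.2)
  let t : ℕ → ℕ := fun i => Nat.rec 1 (fun i ti => 2 * ti + 1 + k * sup (f (ti + 1) i)) i
  have ht : ∀ i, t (i + 1) = 2 * t i + 1 + k * sup (f (t i + 1) i) := fun i => rfl
  refine ⟨t, fun i => f (t i + 1) i, ?_, ?_, ?_, ?_, ?_⟩
  · intro i
    rw [ht]
    omega
  · intro i
    exact hf1 _ _
  · intro i
    exact hf2 _ _
  · intro i z hz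
    rw [ht]
    have h1 : W z.1 z.2 ≤ sup (f (t i + 1) i) :=
      Finset.le_sup (f := fun z : ℕ × ℕ => W z.1 z.2) hz
    have h2 := Nat.mul_le_mul_left k h1
    omega
  · intro i
    exact hf3 _ _

/-- Abstract form of the counterexample. -/
theorem no_limit (k : ℕ) (hk : 2 ≤ k) (W : ℕ → ℕ → ℕ)
    (hW : ∀ K N₀ : ℕ, ∃ N : ℕ, N₀ ≤ N ∧ 0 < N ∧
      ((((Finset.Icc 1 N) ×ˢ (Finset.Icc 1 N)).filter
        (fun z : ℕ × ℕ => W z.1 z.2 < K)).card : ℝ) ≤ 1 / 4 * (N : ℝ) ^ 2) :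
    ∃ x : XX k, ¬ ∃ L : ℂ, Tendsto (fun N : ℕ => (1 / (N : ℂ) ^ 2) *
      ∑ m ∈ Finset.Icc 1 N, ∑ n ∈ Finset.Icc 1 N, FF k ((TT k)^[k * W m n] x))
      atTop (𝓝 L) := by
  obtain ⟨t, N, ht, hN1, hN2, hN3, hN4⟩ := exists_scales k W hW
  refine ⟨pt k t ht, ?_⟩
  rintro ⟨L, hL⟩
  set A : ℕ → ℂ := fun N : ℕ => (1 / (N : ℂ) ^ 2) *
      ∑ m ∈ Finset.Icc 1 N, ∑ n ∈ Finset.Icc 1 N, FF k ((TT k)^[k * W m n] (pt k t ht)) with hA
  have hNtop : Tendsto N atTop atTop := tendsto_atTop_mono hN1 tendsto_id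
  have hAN : Tendsto (fun i => A (N i)) atTop (𝓝 L) := hL.comp hNtop
  -- the value at scale `i`
  have hval : ∀ i, ‖A (N i) - (if k ∣ (i + 1) then 1 else 0)‖ ≤ 1 / 4 := by
    intro i
    set v : ℂ := if k ∣ (i + 1) then 1 else 0 with hv
    set box := (Finset.Icc 1 (N i)) ×ˢ (Finset.Icc 1 (N i)) with hbox
    have hNi : (0 : ℝ) < N i := by exact_mod_cast hN2 i
    have hNc : ((N i : ℕ) : ℂ) ≠ 0 := by
      have := hN2 i
      exact_mod_cast this.ne'
    have hcardbox : ((box.card : ℕ) : ℂ) = (N i : ℂ) ^ 2 := by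
      rw [hbox, Finset.card_product, Nat.card_Icc, Nat.add_sub_cancel]
      push_cast
      ring
    have h1 : A (N i) - v = (1 / (N i : ℂ) ^ 2) *
        ∑ z ∈ box, (FF k ((TT k)^[k * W z.1 z.2] (pt k t ht)) - v) := by
      rw [Finset.sum_sub_distrib, Finset.sum_const, nsmul_eq_mul, hcardbox, mul_sub]
      rw [hA]
      simp only
      rw [hbox, Finset.sum_product]
      field_simp
    rw [h1, norm_mul]
    have h2 : ‖∑ z ∈ box, (FF k ((TT k)^[k * W z.1 z.2] (pt k t ht)) - v)‖ ≤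
        1 / 4 * (N i : ℝ) ^ 2 := by
      refine le_trans (norm_sum_le _ _) ?_
      refine le_trans ?_ (hN4 i)
      rw [← hbox, Finset.card_filter]
      push_cast
      apply Finset.sum_le_sum
      intro z hz
      by_cases hb : W z.1 z.2 < t i + 1
      · rw [if_pos hb]
        have hF : FF k ((TT k)^[k * W z.1 z.2] (pt k t ht)) = 1 ∨
            FF k ((TT k)^[k * W z.1 z.2] (pt k t ht)) = 0 := by
          change (if _ then (1 : ℂ) else 0) = 1 ∨ (if _ then (1 : ℂ) else 0) = 0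
          split_ifs
          · left; rfl
          · right; rfl
        have hv' : v = 1 ∨ v = 0 := by
          rw [hv]
          split_ifs
          · left; rfl
          · right; rfl
        rcases hF with h | h <;> rcases hv' with h' | h' <;> rw [h, h'] <;> norm_num
      · rw [if_neg hb]
        have hb' : t i < k * W z.1 z.2 := by
          push Not at hb
          have : 1 * W z.1 z.2 ≤ k * W z.1 z.2 := Nat.mul_le_mul_right _ (by omega)
          omega
        rw [FF_value k ht i (W z.1 z.2) hb' (hN3 i z hz), sub_self, norm_zero]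
    have h3 : ‖(1 / (N i : ℂ) ^ 2)‖ = 1 / (N i : ℝ) ^ 2 := by
      rw [norm_div, norm_one, norm_pow, Complex.norm_natCast]
    rw [h3]
    calc 1 / (N i : ℝ) ^ 2 * ‖∑ z ∈ box, (FF k ((TT k)^[k * W z.1 z.2] (pt k t ht)) - v)‖
        ≤ 1 / (N i : ℝ) ^ 2 * (1 / 4 * (N i : ℝ) ^ 2) :=
          mul_le_mul_of_nonneg_left h2 (by positivity)
      _ = 1 / 4 := by field_simp
  obtain ⟨i0, hi0⟩ := (Metric.tendsto_atTop.mp hAN) (1 / 8) (by norm_num)
  have hd1 : k ∣ (k * (i0 + 1) - 1) + 1 := by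
    have : k * (i0 + 1) - 1 + 1 = k * (i0 + 1) :=
      Nat.sub_add_cancel (Nat.mul_pos (by omega) (Nat.succ_pos _))
    rw [this]
    exact Dvd.intro _ rfl
  have hd2 : ¬ k ∣ (k * (i0 + 1)) + 1 := by
    intro h
    have := (Nat.dvd_add_right (Dvd.intro (i0 + 1) rfl)).mp h
    have := Nat.le_of_dvd (by norm_num) this
    omega
  have hge : i0 + 1 ≤ k * (i0 + 1) := Nat.le_mul_of_pos_left _ (by omega)
  have a1 := hval (k * (i0 + 1) - 1)
  have a2 := hval (k * (i0 + 1))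
  have b1 := hi0 (k * (i0 + 1) - 1) (by omega)
  have b2 := hi0 (k * (i0 + 1)) (by omega)
  rw [if_pos hd1] at a1
  rw [if_neg hd2] at a2
  rw [dist_eq_norm] at b1 b2
  have h1 : ‖(1 : ℂ)‖ ≤ ‖A (N (k * (i0 + 1) - 1)) - 1‖ + ‖A (N (k * (i0 + 1) - 1)) - L‖ +
      ‖A (N (k * (i0 + 1))) - 0‖ + ‖A (N (k * (i0 + 1))) - L‖ := by
    have : (1 : ℂ) = -(A (N (k * (i0 + 1) - 1)) - 1) + (A (N (k * (i0 + 1) - 1)) - L) +
      (A (N (k * (i0 + 1))) - 0) - (A (N (k * (i0 + 1))) - L) := by ring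
    calc ‖(1 : ℂ)‖ = ‖-(A (N (k * (i0 + 1) - 1)) - 1) + (A (N (k * (i0 + 1) - 1)) - L) +
      (A (N (k * (i0 + 1))) - 0) - (A (N (k * (i0 + 1))) - L)‖ := by rw [← this]
      _ ≤ ‖-(A (N (k * (i0 + 1) - 1)) - 1) + (A (N (k * (i0 + 1) - 1)) - L) +
      (A (N (k * (i0 + 1))) - 0)‖ + ‖A (N (k * (i0 + 1))) - L‖ := norm_sub_le _ _
      _ ≤ _ := by
        gcongr
        refine (norm_add_le _ _).trans ?_
        gcongr
        refine (norm_add_le _ _).trans ?_
        rw [norm_neg]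
  rw [norm_one] at h1
  linarith

end Pool.Agent.H98R3.OM
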